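import Mathlib

/-!
# MP_f7ef37_lc: derivations in Res(t), basic derived rules
-/

set_option autoImplicit false

namespace Pool.Agent.Work.MP_f7ef37_lc

open Finset

/-- Lines: sets of terms. -/
abbrev Line (m n : ℕ) : Type := Finset (Finset (Fin m × Fin n × Bool))

/-- The negations of the literals of a term, as singleton terms. -/
def ng {m n : ℕ} (T : Finset (Fin m × Fin n × Bool)) : Line m n :=
  T.image (fun l => ({(l.1, l.2.1, !l.2.2)} : Finset (Fin m × Fin n × Bool)))

/-- One step of the calculus from the available lines `S`. -/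
def Step {m n : ℕ} (S : Set (Line m n)) (F : Line m n) : Prop :=
  (∃ i : Fin m, F = Finset.univ.image
      (fun j : Fin n => ({(i, j, true)} : Finset (Fin m × Fin n × Bool)))) ∨
  (∃ i i' : Fin m, ∃ j : Fin n, i ≠ i' ∧ F = {{(i, j, false)}, {(i', j, false)}}) ∨
  (∃ R ∈ S, R ⊆ F) ∨
  (∃ R ∈ S, ∃ R' ∈ S, ∃ T ∈ R, ∃ T' ∈ R', R.erase T ∪ R'.erase T' ∪ {T ∪ T'} ⊆ F) ∨
  (∃ R ∈ S, ∃ R' ∈ S, ∃ T ∈ R, ng T ⊆ R' ∧ R.erase T ∪ (R' \ ng T) ⊆ F)

theorem Step.mono {m n : ℕ} {S S' : Set (Line m n)} {F : Line m n} (h : Step S F)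
    (hS : S ⊆ S') : Step S' F := by
  rcases h with h | h | ⟨R, hR, h⟩ | ⟨R, hR, R', hR', h⟩ | ⟨R, hR, R', hR', h⟩
  · exact Or.inl h
  · exact Or.inr (Or.inl h)
  · exact Or.inr (Or.inr (Or.inl ⟨R, hS hR, h⟩))
  · exact Or.inr (Or.inr (Or.inr (Or.inl ⟨R, hS hR, R', hS hR', h⟩)))
  · exact Or.inr (Or.inr (Or.inr (Or.inr ⟨R, hS hR, R', hS hR', h⟩)))

/-- All terms have between one and `t` literals. -/
def Good {m n : ℕ} (t : ℕ) (F : Line m n) : Prop := ∀ T ∈ F, 1 ≤ T.card ∧ T.card ≤ t

theorem Good.union {m n t : ℕ} {F G : Line m n} (hF : Good t F) (hG : Good t G) :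
    Good t (F ∪ G) := by
  intro T hT
  rcases Finset.mem_union.mp hT with h | h
  · exact hF T h
  · exact hG T h

theorem Good.sub {m n t : ℕ} {F G : Line m n} (hF : Good t F) (h : G ⊆ F) : Good t G :=
  fun T hT => hF T (h hT)

theorem good_ng {m n t : ℕ} (ht : 1 ≤ t) (T : Finset (Fin m × Fin n × Bool)) :
    Good t (ng T) := by
  intro U hU
  unfold ng at hU
  rw [Finset.mem_image] at hU
  obtain ⟨l, _, rfl⟩ := hU
  simpa using ht

/-- Chains of derivation steps. -/
inductive D {m n : ℕ} (t : ℕ) (H : Set (Line m n)) : ℕ → Set (Line m n) → Prop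
  | refl : D t H 0 H
  | step {N : ℕ} {S : Set (Line m n)} (F : Line m n) : D t H N S → Step S F → Good t F →
      D t H (N + 1) (insert F S)

theorem D.sub {m n t : ℕ} {H : Set (Line m n)} {N : ℕ} {S : Set (Line m n)} (h : D t H N S) :
    H ⊆ S := by
  induction h with
  | refl => exact subset_rfl
  | step F _ _ _ ih => exact ih.trans (Set.subset_insert _ _)

theorem D.trans {m n t : ℕ} {H : Set (Line m n)} {N : ℕ} {S : Set (Line m n)} (h : D t H N S)
    {N' : ℕ} {S' : Set (Line m n)} (h' : D t S N' S') : D t H (N + N') S' := by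
  induction h' with
  | refl => exact h
  | step F _ hs hg ih => exact D.step F ih hs hg

theorem D.mono {m n t : ℕ} {H : Set (Line m n)} {N : ℕ} {S : Set (Line m n)} (h : D t H N S)
    {H' : Set (Line m n)} (hH : H ⊆ H') : D t H' N (H' ∪ S) := by
  induction h with
  | refl => rw [Set.union_eq_self_of_subset_right hH]; exact D.refl
  | step F _ hs hg ih =>
    rw [Set.union_insert]
    exact D.step F ih (hs.mono Set.subset_union_right) hg

/-- The lines `Fs` can be derived from `H` in at most `K` steps. -/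
def R {m n : ℕ} (t : ℕ) (H : Set (Line m n)) (K : ℕ) (Fs : Set (Line m n)) : Prop :=
  ∃ N ≤ K, ∃ S, D t H N S ∧ Fs ⊆ S

theorem R.of_sub {m n t : ℕ} {H : Set (Line m n)} {Fs : Set (Line m n)} (h : Fs ⊆ H) (K : ℕ) :
    R t H K Fs := ⟨0, Nat.zero_le _, H, D.refl, h⟩

theorem R.mono {m n t : ℕ} {H H' : Set (Line m n)} {K K' : ℕ} {Fs Fs' : Set (Line m n)}
    (h : R t H K Fs) (hH : H ⊆ H') (hK : K ≤ K') (hF : Fs' ⊆ Fs) : R t H' K' Fs' := by
  obtain ⟨N, hN, S, hD, hS⟩ := h
  exact ⟨N, hN.trans hK, _, hD.mono hH, (hF.trans hS).trans Set.subset_union_right⟩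

theorem R.trans {m n t : ℕ} {H : Set (Line m n)} {K K' : ℕ} {Fs Gs : Set (Line m n)}
    (h : R t H K Fs) (h' : R t (H ∪ Fs) K' Gs) : R t H (K + K') Gs := by
  obtain ⟨N, hN, S, hD, hS⟩ := h
  obtain ⟨N', hN', S', hD', hS'⟩ := h'
  refine ⟨N + N', by omega, _, hD.trans (hD'.mono (Set.union_subset hD.sub hS)), ?_⟩
  exact hS'.trans Set.subset_union_right

theorem R.trans' {m n t : ℕ} {H : Set (Line m n)} {K K' : ℕ} {Fs Gs : Set (Line m n)}
    (h : R t H K Fs) (h' : R t (H ∪ Fs) K' Gs) : R t H (K + K') (Fs ∪ Gs) := by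
  obtain ⟨N, hN, S, hD, hS⟩ := h
  obtain ⟨N', hN', S', hD', hS'⟩ := h'
  refine ⟨N + N', by omega, _, hD.trans (hD'.mono (Set.union_subset hD.sub hS)), ?_⟩
  exact Set.union_subset (hS.trans Set.subset_union_left) (hS'.trans Set.subset_union_right)

/-- Several targets. -/
theorem R.all {m n t : ℕ} {H : Set (Line m n)} {K : ℕ} {ι : Type} [DecidableEq ι]
    (s : Finset ι) (F : ι → Line m n) (h : ∀ i ∈ s, R t H K {F i}) :
    R t H (s.card * K) (F '' (s : Set ι)) := by
  induction s using Finset.induction_on with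
  | empty => exact ⟨0, Nat.zero_le _, H, D.refl, by simp⟩
  | insert a s ha ih =>
    rw [Finset.card_insert_of_notMem ha, add_mul, one_mul, Finset.coe_insert,
      Set.image_insert_eq, ← Set.singleton_union, Set.union_comm]
    refine R.trans' (ih fun i hi => h i (Finset.mem_insert_of_mem hi)) ?_
    exact (h a (Finset.mem_insert_self a s)).mono Set.subset_union_left le_rfl subset_rfl

theorem R.step {m n t : ℕ} {H : Set (Line m n)} {F : Line m n} (h : Step H F) (hg : Good t F) :
    R t H 1 {F} := ⟨1, le_rfl, _, D.step F D.refl h hg, by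
  intro G hG
  rw [Set.mem_singleton_iff] at hG
  subst hG
  exact Set.mem_insert _ _⟩

theorem R.weak {m n t : ℕ} {H : Set (Line m n)} {F G : Line m n} (h : F ∈ H) (hFG : F ⊆ G)
    (hg : Good t G) : R t H 1 {G} :=
  R.step (Or.inr (Or.inr (Or.inl ⟨F, h, hFG⟩))) hg

theorem R.conj {m n t : ℕ} {H : Set (Line m n)} {F F' G : Line m n} (h : F ∈ H) (h' : F' ∈ H)
    {T T' : Finset (Fin m × Fin n × Bool)} (hT : T ∈ F) (hT' : T' ∈ F')
    (hFG : F.erase T ∪ F'.erase T' ∪ {T ∪ T'} ⊆ G) (hg : Good t G) : R t H 1 {G} :=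
  R.step (Or.inr (Or.inr (Or.inr (Or.inl ⟨F, h, F', h', T, hT, T', hT', hFG⟩)))) hg

theorem R.cut {m n t : ℕ} {H : Set (Line m n)} {F F' G : Line m n} (h : F ∈ H) (h' : F' ∈ H)
    {T : Finset (Fin m × Fin n × Bool)} (hT : T ∈ F) (hT' : ng T ⊆ F')
    (hFG : F.erase T ∪ (F' \ ng T) ⊆ G) (hg : Good t G) : R t H 1 {G} :=
  R.step (Or.inr (Or.inr (Or.inr (Or.inr ⟨F, h, F', h', T, hT, hT', hFG⟩)))) hg

/-- Cut of the hole axiom. -/
theorem R.hole {m n t : ℕ} (ht : 1 ≤ t) {H : Set (Line m n)} {F G E : Line m n} (h : F ∈ H)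
    {T : Finset (Fin m × Fin n × Bool)} (hT : T ∈ F) {u v : Fin m} {w : Fin n} (huv : u ≠ v)
    (hv : (v, w, true) ∈ T) (hu : ({(u, w, false)} : Finset (Fin m × Fin n × Bool)) ∈ E)
    (hE : Good t E) (hFG : F.erase T ∪ E ⊆ G) (hg : Good t G) : R t H 3 {G} := by
  have h1 : R t H 1 {({{(u, w, false)}, {(v, w, false)}} : Line m n)} := by
    refine R.step (Or.inr (Or.inl ⟨u, v, w, huv, rfl⟩)) ?_
    intro U hU
    rw [Finset.mem_insert, Finset.mem_singleton] at hU
    rcases hU with rfl | rfl <;> simpa using ht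
  have h2 : R t (H ∪ {({{(u, w, false)}, {(v, w, false)}} : Line m n)}) 1 {E ∪ ng T} := by
    refine R.weak (F := {{(u, w, false)}, {(v, w, false)}}) (Or.inr rfl) ?_
      (hE.union (good_ng ht T))
    intro U hU
    rw [Finset.mem_insert, Finset.mem_singleton] at hU
    rcases hU with rfl | rfl
    · exact Finset.mem_union_left _ hu
    · refine Finset.mem_union_right _ ?_
      unfold ng
      rw [Finset.mem_image]
      exact ⟨_, hv, rfl⟩
  have h3 : R t (H ∪ {E ∪ ng T}) 1 {G} := by
    refine R.cut (F := F) (F' := E ∪ ng T) (Or.inl h) (Or.inr rfl) hT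
      Finset.subset_union_right ?_ hg
    refine (Finset.union_subset_union subset_rfl ?_).trans hFG
    intro U hU
    rw [Finset.mem_sdiff, Finset.mem_union] at hU
    tauto
  exact (h1.trans h2).trans h3

variable {m n t : ℕ}

/-- Two terms which put different pigeons into one hole. -/
def Clash (T T' : Finset (Fin m × Fin n × Bool)) : Prop :=
  ∃ (w : Fin n) (u u' : Fin m), u ≠ u' ∧ (u, w, true) ∈ T ∧ (u', w, true) ∈ T'

/-- Incompatible disjunctions. -/
theorem R.contr (ht : 1 ≤ t) {H : Set (Line m n)} {G A : Line m n} (hA : G ∪ A ∈ H)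
    (gG : Good t G) (gA : Good t A) (B : ℕ) (hB : ∀ F : Line m n, Good t F → F.card ≤ B)
    (hAB : ∀ T ∈ A, ∃ F : Line m n, G ∪ F ∈ H ∧ Good t F ∧ ∀ T' ∈ F, Clash T T') :
    R t H (B * (3 * B + 2) + 1) {G} := by
  have h1 : ∀ T ∈ A, R t H (3 * B + 1) {G ∪ ng T} := by
    intro T hT
    obtain ⟨F, hF, gF, hTF⟩ := hAB T hT
    have h0 : ∀ B' ⊆ F, R t H (3 * B'.card + 1) {G ∪ ng T ∪ (F \ B')} := by
      intro B' hB'
      induction B' using Finset.induction_on with
      | empty =>
        refine R.weak hF ?_ ((gG.union (good_ng ht T)).union (gF.sub Finset.sdiff_subset))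
        intro U hU
        simp only [Finset.mem_union, Finset.sdiff_empty] at hU ⊢
        tauto
      | insert T' B' hT' ih =>
        have hT'B : T' ∈ F := hB' (Finset.mem_insert_self T' B')
        obtain ⟨w, u, u', huu, hu, hu'⟩ := hTF T' hT'B
        rw [Finset.card_insert_of_notMem hT']
        refine R.mono ((ih fun U hU => hB' (Finset.mem_insert_of_mem hU)).trans
          (R.hole ht (F := G ∪ ng T ∪ (F \ B')) (Or.inr rfl) (T := T') ?_ huu hu' (E := ng T) ?_
            (good_ng ht T) (G := G ∪ ng T ∪ (F \ insert T' B')) ?_ ?_)) subset_rfl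
            (by omega) subset_rfl
        · exact Finset.mem_union_right _ (Finset.mem_sdiff.mpr ⟨hT'B, hT'⟩)
        · unfold ng
          exact Finset.mem_image.mpr ⟨_, hu, rfl⟩
        · intro U hU
          simp only [Finset.mem_union, Finset.mem_erase, Finset.mem_sdiff,
            Finset.mem_insert] at hU ⊢
          tauto
        · exact (gG.union (good_ng ht T)).union (gF.sub Finset.sdiff_subset)
    have h3 := h0 F subset_rfl
    rw [Finset.sdiff_self, Finset.union_empty] at h3
    have := hB F gF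
    exact h3.mono subset_rfl (by omega) subset_rfl
  have h2 : ∀ A' ⊆ A, R t H (A'.card * (3 * B + 2) + 1) {G ∪ (A \ A')} := by
    intro A' hA'
    induction A' using Finset.induction_on with
    | empty =>
      rw [Finset.sdiff_empty]
      exact R.of_sub (by simpa using hA) _
    | insert T A' hT ih =>
      have hTA : T ∈ A := hA' (Finset.mem_insert_self T A')
      rw [Finset.card_insert_of_notMem hT]
      have h3 := h1 T hTA
      have h4 := (ih fun U hU => hA' (Finset.mem_insert_of_mem hU)).trans'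
        (h3.mono Set.subset_union_left le_rfl subset_rfl)
      refine (h4.trans (R.cut (F := G ∪ (A \ A')) (F' := G ∪ ng T)
        (G := G ∪ (A \ insert T A')) (Or.inr (Or.inl rfl)) (Or.inr (Or.inr rfl)) (T := T)
        ?_ Finset.subset_union_right ?_ ?_)).mono subset_rfl ?_ subset_rfl
      · exact Finset.mem_union_right _ (Finset.mem_sdiff.mpr ⟨hTA, hT⟩)
      · intro U hU
        simp only [Finset.mem_union, Finset.mem_erase, Finset.mem_sdiff,
          Finset.mem_insert] at hU ⊢
        tauto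
      · exact gG.union (gA.sub Finset.sdiff_subset)
      · nlinarith
  have h5 := h2 A subset_rfl
  rw [Finset.sdiff_self, Finset.union_empty] at h5
  refine h5.mono subset_rfl ?_ subset_rfl
  have := Nat.mul_le_mul_right (3 * B + 2) (hB A gA)
  omega

/-- Conjunction of one term with a part of a line. -/
theorem R.andPart {H : Set (Line m n)} {G X Y Z : Line m n} (hX : G ∪ X ∈ H) (hY : Y ∈ H)
    {a : Finset (Fin m × Fin n × Bool)} (ha : a ∈ Y) (gX : Good t X) (gZ : Good t Z) (B : ℕ)
    (hB : ∀ F : Line m n, Good t F → F.card ≤ B) (hGZ : G ⊆ Z) (hYZ : Y.erase a ⊆ Z)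
    (hE : ∀ T ∈ X, a ∪ T ∈ Z) : R t H (B + 1) {Z} := by
  have h1 : ∀ S ⊆ X, R t H (S.card + 1) {Z ∪ (X \ S)} := by
    intro S hS
    have hg : ∀ S, Good t (Z ∪ (X \ S)) := fun S => gZ.union (gX.sub Finset.sdiff_subset)
    induction S using Finset.induction_on with
    | empty =>
      refine R.weak hX ?_ (hg ∅)
      rw [Finset.sdiff_empty]
      exact Finset.union_subset_union hGZ subset_rfl
    | insert T S hTS ih =>
      have hT : T ∈ X := hS (Finset.mem_insert_self T S)
      rw [Finset.card_insert_of_notMem hTS]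
      refine (ih fun U hU => hS (Finset.mem_insert_of_mem hU)).trans ?_
      refine R.conj (F := Y) (F' := Z ∪ (X \ S)) (Or.inl hY)
        (Or.inr rfl) ha (T' := T) ?_ ?_ (hg _)
      · exact Finset.mem_union_right _ (Finset.mem_sdiff.mpr ⟨hT, hTS⟩)
      · have h2 := hE T hT
        intro U hU
        rw [Finset.mem_union, Finset.mem_union, Finset.mem_singleton] at hU
        rcases hU with (h3 | h3) | h3
        · exact Finset.mem_union_left _ (hYZ h3)
        · rw [Finset.mem_erase, Finset.mem_union, Finset.mem_sdiff] at h3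
          rw [Finset.mem_union, Finset.mem_sdiff, Finset.mem_insert]
          tauto
        · subst h3
          exact Finset.mem_union_left _ h2
  have h5 := h1 X subset_rfl
  rw [Finset.sdiff_self, Finset.union_empty] at h5
  refine h5.mono subset_rfl ?_ subset_rfl
  have := hB X gX
  omega

/-- The pigeon axiom. -/
theorem R.pigeonAx (ht : 1 ≤ t) {H : Set (Line m n)} (u : Fin m) :
    R t H 1 {(Finset.univ.image
      (fun j : Fin n => ({(u, j, true)} : Finset (Fin m × Fin n × Bool))) : Line m n)} := by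
  refine R.step (Or.inl ⟨u, rfl⟩) ?_
  intro U hU
  rw [Finset.mem_image] at hU
  obtain ⟨j, _, rfl⟩ := hU
  simpa using ht

/-- The pigeon axiom, with the literal `x_uc` replaced by its conjunctions with the terms of
`X c`. -/
theorem R.pigeon (ht : 1 ≤ t) {H : Set (Line m n)} {G Z : Line m n} (X : Fin n → Line m n)
    (u : Fin m) (hH : ∀ c : Fin n, G ∪ X c ∈ H) (gX : ∀ c, Good t (X c))
    (gZ : Good t Z) (B : ℕ) (hB : ∀ F : Line m n, Good t F → F.card ≤ B) (hGZ : G ⊆ Z)
    (hE : ∀ c, ∀ T ∈ X c, {(u, c, true)} ∪ T ∈ Z) :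
    R t H (n * (B + 1) + 2) {Z} := by
  have hg : ∀ C : Finset (Fin n), Good t (Z ∪ (Finset.univ \ C).image
      (fun j : Fin n => ({(u, j, true)} : Finset (Fin m × Fin n × Bool)))) := by
    intro C
    refine gZ.union ?_
    intro U hU
    rw [Finset.mem_image] at hU
    obtain ⟨j, _, rfl⟩ := hU
    simpa using ht
  have h1 : ∀ C : Finset (Fin n), R t H (C.card * (B + 1) + 2) {Z ∪
      (Finset.univ \ C).image
        (fun j : Fin n => ({(u, j, true)} : Finset (Fin m × Fin n × Bool)))} := by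
    intro C
    induction C using Finset.induction_on with
    | empty =>
      rw [Finset.card_empty, Nat.zero_mul, Nat.zero_add, Finset.sdiff_empty]
      have h0 := hg ∅
      rw [Finset.sdiff_empty] at h0
      exact (R.pigeonAx ht u).trans (R.weak (Or.inr rfl) Finset.subset_union_right h0)
    | insert c C hc ih =>
      rw [Finset.card_insert_of_notMem hc]
      refine (ih.trans (R.andPart (t := t) (X := X c) (a := {(u, c, true)})
        (Or.inl (hH c)) (Or.inr rfl) ?_ (gX c) (hg (insert c C)) B hB ?_ ?_ ?_)).mono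
        subset_rfl (by nlinarith) subset_rfl
      · refine Finset.mem_union_right _ (Finset.mem_image.mpr ⟨c, ?_, rfl⟩)
        simpa using hc
      · exact hGZ.trans Finset.subset_union_left
      · intro U hU
        rw [Finset.mem_erase, Finset.mem_union, Finset.mem_image] at hU
        rw [Finset.mem_union, Finset.mem_image]
        rcases hU with ⟨h3, h4 | ⟨j, hj, rfl⟩⟩
        · exact Or.inl h4
        · refine Or.inr ⟨j, ?_, rfl⟩
          rw [Finset.mem_sdiff] at hj ⊢
          refine ⟨hj.1, ?_⟩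
          rw [Finset.mem_insert]
          rintro (rfl | h5)
          · exact h3 rfl
          · exact hj.2 h5
      · intro T hT
        exact Finset.mem_union_left _ (hE c T hT)
  have h5 := h1 Finset.univ
  rw [Finset.sdiff_self, Finset.image_empty, Finset.union_empty, Finset.card_univ,
    Fintype.card_fin] at h5
  exact h5

end Pool.Agent.Work.MP_f7ef37_lc
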