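import Pool.Agent.Work.MP_f7ef37_lc.Rec

/-!
# MP_f7ef37_lc: the number of terms, chains as lists, numerical bounds
-/

set_option autoImplicit false

namespace Pool.Agent.Work.MP_f7ef37_lc

open Finset

variable {m n L t : ℕ}

theorem card_good (F : Line m n) (hF : Good t F) : F.card ≤ (2 * m * n + 1) ^ t := by
  have hN : Fintype.card (Fin m × Fin n × Bool) = 2 * m * n := by
    simp only [Fintype.card_prod, Fintype.card_fin, Fintype.card_bool]
    ring
  have h1 : F ⊆ (Finset.range (t + 1)).biUnion (fun i =>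
      (Finset.univ : Finset (Fin m × Fin n × Bool)).powersetCard i) := by
    intro T hT
    rw [Finset.mem_biUnion]
    refine ⟨T.card, Finset.mem_range.mpr (Nat.lt_succ_of_le (hF T hT).2), ?_⟩
    rw [Finset.mem_powersetCard]
    exact ⟨Finset.subset_univ _, rfl⟩
  refine (Finset.card_le_card h1).trans (Finset.card_biUnion_le.trans ?_)
  rw [add_pow]
  refine Finset.sum_le_sum fun i hi => ?_
  rw [Finset.card_powersetCard, Finset.card_univ, hN, one_pow, mul_one]
  have h2 : 1 ≤ t.choose i := Nat.choose_pos (Nat.lt_succ_iff.mp (Finset.mem_range.mp hi))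
  calc (2 * m * n).choose i ≤ (2 * m * n) ^ i := Nat.choose_le_pow _ _
    _ = (2 * m * n) ^ i * 1 := (mul_one _).symm
    _ ≤ (2 * m * n) ^ i * t.choose i := Nat.mul_le_mul_left _ h2

theorem D.toList {N : ℕ} {S : Set (Line m n)} (h : D t (∅ : Set (Line m n)) N S) :
    ∃ l : List (Line m n), l.length = N ∧ S = {F | F ∈ l} ∧ (∀ F ∈ l, Good t F) ∧
      ∀ (i : ℕ) (hi : i < l.length), Step {F | F ∈ l.take i} l[i] := by
  induction h with
  | refl => exact ⟨[], rfl, by simp, by simp, fun i hi => by simp at hi⟩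
  | @step N S F _ hs hg ih =>
    obtain ⟨l, hl, hS, hgood, hstep⟩ := ih
    refine ⟨l ++ [F], by simp [hl], ?_, ?_, ?_⟩
    · ext G
      rw [hS]
      simp only [Set.mem_insert_iff, Set.mem_ofPred_eq, List.mem_append, List.mem_singleton]
      tauto
    · intro G hG
      rw [List.mem_append, List.mem_singleton] at hG
      rcases hG with hG | rfl
      · exact hgood G hG
      · exact hg
    · intro i hi
      rw [List.length_append, List.length_singleton] at hi
      by_cases hi' : i < l.length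
      · rw [List.getElem_append_left hi', List.take_append_of_le_length hi'.le]
        exact hstep i hi'
      · have hi2 : i = l.length := by omega
        subst hi2
        rw [List.getElem_append_right le_rfl, List.take_left]
        simp only [Nat.sub_self, List.getElem_cons_zero]
        rwa [hS] at hs

/-- A chain which reaches the empty line gives a sequence of lines. -/
theorem exists_seq {K B : ℕ} (hB : ∀ F : Line m n, Good t F → F.card ≤ B)
    (h : R t (∅ : Set (Line m n)) K {∅}) :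
    ∃ (k : ℕ) (P : Fin (k + 1) → Finset (Finset (Fin m × Fin n × Bool))),
      (∀ s, Good t (P s)) ∧ P (Fin.last k) = ∅ ∧
      (∀ s, Step {F | ∃ r, r < s ∧ P r = F} (P s)) ∧
      ∑ s, ∑ T ∈ P s, T.card ≤ (K + 1) * (B * t) := by
  obtain ⟨N, hN, S, hD, hS⟩ := h
  obtain ⟨l, hl, hSl, hgood, hstep⟩ := hD.toList
  have hemp : (∅ : Line m n) ∈ l := by
    have : (∅ : Line m n) ∈ S := hS rfl
    rwa [hSl] at this
  have hlen : (l ++ [(∅ : Line m n)]).length = N + 1 := by simp [hl]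
  have hsteps : ∀ (i : ℕ) (hi : i < (l ++ [(∅ : Line m n)]).length),
      Step {F | F ∈ (l ++ [(∅ : Line m n)]).take i} (l ++ [(∅ : Line m n)])[i] := by
    intro i hi
    by_cases hi' : i < l.length
    · rw [List.getElem_append_left hi', List.take_append_of_le_length hi'.le]
      exact hstep i hi'
    · have hi2 : i = l.length := by
        rw [List.length_append, List.length_singleton] at hi
        omega
      subst hi2
      rw [List.getElem_append_right le_rfl, List.take_left]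
      simp only [Nat.sub_self, List.getElem_cons_zero]
      exact Or.inr (Or.inr (Or.inl ⟨∅, hemp, subset_rfl⟩))
  have hgood' : ∀ F ∈ l ++ [(∅ : Line m n)], Good t F := by
    intro F hF
    rw [List.mem_append, List.mem_singleton] at hF
    rcases hF with hF | rfl
    · exact hgood F hF
    · intro T hT
      simp at hT
  have hlast : ∀ (hi : N < (l ++ [(∅ : Line m n)]).length), (l ++ [(∅ : Line m n)])[N] = ∅ := by
    intro hi
    subst hl
    rw [List.getElem_append_right le_rfl]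
    simp
  generalize l ++ [(∅ : Line m n)] = l' at hlen hsteps hgood' hlast
  refine ⟨N, fun s => l'[s.val]'(by omega), ?_, ?_, ?_, ?_⟩
  · intro s
    exact hgood' _ (List.getElem_mem _)
  · exact hlast _
  · intro s
    refine (hsteps s.val (by omega)).mono ?_
    intro F hF
    rw [Set.mem_ofPred_eq, List.mem_take_iff_getElem] at hF
    obtain ⟨i, hi, rfl⟩ := hF
    have hi1 : i < s.val := lt_of_lt_of_le hi (min_le_left _ _)
    exact ⟨⟨i, by omega⟩, hi1, rfl⟩
  · have h1 : ∀ s : Fin (N + 1), ∑ T ∈ l'[s.val]'(by omega), T.card ≤ B * t := by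
      intro s
      have hg := hgood' _ (List.getElem_mem (l := l') (n := s.val) (by omega))
      calc ∑ T ∈ l'[s.val]'(by omega), T.card ≤ ∑ _T ∈ l'[s.val]'(by omega), t :=
            Finset.sum_le_sum fun T hT => (hg T hT).2
        _ = (l'[s.val]'(by omega)).card * t := by rw [Finset.sum_const, smul_eq_mul]
        _ ≤ B * t := Nat.mul_le_mul_right _ (hB _ hg)
    calc ∑ s : Fin (N + 1), ∑ T ∈ l'[s.val]'(by omega), T.card
        ≤ ∑ _s : Fin (N + 1), B * t := Finset.sum_le_sum fun s _ => h1 s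
      _ = (N + 1) * (B * t) := by simp
      _ ≤ (K + 1) * (B * t) := Nat.mul_le_mul_right _ (by omega)

theorem KK_le (Q : ℕ) (hQ : 2 ≤ Q) (hnQ : n + 1 ≤ Q) (hnL : n ^ L ≤ Q) (hn2 : 2 ≤ n)
    (hL : L ≤ Q) (B : ℕ) (hB1 : 1 ≤ B) (hB : B ≤ Q ^ t) (k : ℕ) :
    KK n L B k ≤ Q ^ (2 * t + 9 + 3 * k) := by
  have hpow : ∀ a : ℕ, 2 ^ a ≤ Q ^ a := fun a => Nat.pow_le_pow_left hQ a
  have hQ1 : 1 ≤ Q := by omega
  induction k with
  | zero =>
    unfold KK
    have h1 : B * (3 * B + 2) + 1 ≤ 2 ^ 3 * (B * B) := by nlinarith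
    have h2 : (n * 2) ^ L ≤ Q ^ 2 := by
      calc (n * 2) ^ L ≤ (n * n) ^ L := Nat.pow_le_pow_left (Nat.mul_le_mul_left _ hn2) _
        _ = n ^ L * n ^ L := mul_pow _ _ _
        _ ≤ Q * Q := Nat.mul_le_mul hnL hnL
        _ = Q ^ 2 := by ring
    have h3 : (n + 1) * (B * (3 * B + 2) + 1) ≤ Q ^ (2 * t + 4) := by
      calc (n + 1) * (B * (3 * B + 2) + 1) ≤ Q * (2 ^ 3 * (B * B)) := Nat.mul_le_mul hnQ h1
        _ ≤ Q * (Q ^ 3 * (Q ^ t * Q ^ t)) :=
            Nat.mul_le_mul_left _ (Nat.mul_le_mul (hpow 3) (Nat.mul_le_mul hB hB))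
        _ = Q ^ (2 * t + 4) := by ring
    have h4 : L * ((n * 2) ^ L * ((n + 1) * (B * (3 * B + 2) + 1))) ≤ Q ^ (2 * t + 7) := by
      calc L * ((n * 2) ^ L * ((n + 1) * (B * (3 * B + 2) + 1)))
          ≤ Q * (Q ^ 2 * Q ^ (2 * t + 4)) := Nat.mul_le_mul hL (Nat.mul_le_mul h2 h3)
        _ = Q ^ (2 * t + 7) := by ring
    have h5 : (n * 2) ^ L * 2 ≤ Q ^ (2 * t + 7) := by
      calc (n * 2) ^ L * 2 ≤ Q ^ 2 * Q := Nat.mul_le_mul h2 hQ
        _ = Q ^ 3 := by ring
        _ ≤ Q ^ (2 * t + 7) := Nat.pow_le_pow_right hQ1 (by omega)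
    calc (n * 2) ^ L * 2 + L * ((n * 2) ^ L * ((n + 1) * (B * (3 * B + 2) + 1)))
        ≤ 2 * Q ^ (2 * t + 7) := by omega
      _ ≤ Q * Q ^ (2 * t + 7) := Nat.mul_le_mul_right _ hQ
      _ = Q ^ (2 * t + 8) := by ring
      _ ≤ Q ^ (2 * t + 9 + 3 * 0) := Nat.pow_le_pow_right hQ1 (by omega)
  | succ k ih =>
    unfold KK
    have h4 : n * (B + 1) + 2 ≤ Q ^ (t + 3) := by
      calc n * (B + 1) + 2 ≤ (n + 1) * (2 ^ 2 * B) := by nlinarith
        _ ≤ Q * (Q ^ 2 * Q ^ t) := Nat.mul_le_mul hnQ (Nat.mul_le_mul (hpow 2) hB)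
        _ = Q ^ (t + 3) := by ring
    have h6 : n ^ L * (n * (B + 1) + 2) ≤ Q ^ (2 * t + 11 + 3 * k) := by
      calc n ^ L * (n * (B + 1) + 2) ≤ Q * Q ^ (t + 3) := Nat.mul_le_mul hnL h4
        _ = Q ^ (t + 4) := by ring
        _ ≤ Q ^ (2 * t + 11 + 3 * k) := Nat.pow_le_pow_right hQ1 (by omega)
    have h7 : L * (n ^ L * KK n L B k) ≤ Q ^ (2 * t + 11 + 3 * k) := by
      calc L * (n ^ L * KK n L B k) ≤ Q * (Q * Q ^ (2 * t + 9 + 3 * k)) :=
            Nat.mul_le_mul hL (Nat.mul_le_mul hnL ih)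
        _ = Q ^ (2 * t + 11 + 3 * k) := by ring
    calc n ^ L * (n * (B + 1) + 2) + L * (n ^ L * KK n L B k)
        ≤ 2 * Q ^ (2 * t + 11 + 3 * k) := by omega
      _ ≤ Q * Q ^ (2 * t + 11 + 3 * k) := Nat.mul_le_mul_right _ hQ
      _ = Q ^ (2 * t + 9 + 3 * (k + 1)) := by ring

/-- The data exist. -/
theorem exists_data {r : ℕ} (hn : 2 ≤ n) (hr : n ≤ L ^ r) (hm : n ^ L ≤ m) :
    Nonempty (Data m n L r) := by
  classical
  have h1 : Fintype.card (Fin L → Fin n) ≤ Fintype.card (Fin m) := by simpa using hm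
  obtain ⟨f⟩ := Function.Embedding.nonempty_of_card_le h1
  have h2 : Fintype.card (Fin n) ≤ Fintype.card (Fin r → Fin L) := by simpa using hr
  obtain ⟨g⟩ := Function.Embedding.nonempty_of_card_le h2
  have : Nonempty (Fin L → Fin n) := ⟨fun _ => ⟨0, by omega⟩⟩
  exact ⟨{
    dec := Function.invFun f
    enc := f
    hde := fun c => Function.leftInverse_invFun f.injective c
    e := fun x => if x then ⟨1, by omega⟩ else ⟨0, by omega⟩
    he := by simp
    path := fun b => List.ofFn (g b)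
    len := fun b => by simp
    inj := fun b b' h => g.injective (List.ofFn_injective h) }⟩

/-- The refutations. -/
theorem main_nat (t L n m : ℕ) (ht : 1 ≤ t) (hn : 2 ≤ n) (hL : n ≤ L ^ (t + 1))
    (hm : n ^ L ≤ m) :
    ∃ (k : ℕ) (P : Fin (k + 1) → Finset (Finset (Fin m × Fin n × Bool))),
      (∀ s, Good t (P s)) ∧ P (Fin.last k) = ∅ ∧
      (∀ s, Step {F | ∃ r, r < s ∧ P r = F} (P s)) ∧
      ∑ s, ∑ T ∈ P s, T.card ≤ (2 * m * n + 2) ^ (17 * t) := by
  obtain ⟨d⟩ := exists_data (r := t + 1) hn hL hm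
  have hLm : L ≤ m := (Nat.lt_pow_self (by omega : 1 < n)).le.trans hm
  have hnLpos : 0 < n ^ L := Nat.pow_pos (by omega)
  have hm0 : 0 < m := by omega
  have hQ : 2 ≤ 2 * m * n + 2 := by omega
  have hmn : n ≤ m * n := Nat.le_mul_of_pos_left n hm0
  have hmm : m ≤ m * n := Nat.le_mul_of_pos_right m (by omega)
  have h2 : 2 * m * n = 2 * (m * n) := mul_assoc _ _ _
  obtain ⟨k, P, hP1, hP2, hP3, hsize⟩ := exists_seq (t := t) (fun F hF => card_good F hF)
    (R.root ht d _ (fun F hF => card_good F hF))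
  refine ⟨k, P, hP1, hP2, hP3, hsize.trans ?_⟩
  have hB1 : 1 ≤ (2 * m * n + 1) ^ t := Nat.one_le_pow _ _ (by omega)
  have hB : (2 * m * n + 1) ^ t ≤ (2 * m * n + 2) ^ t := Nat.pow_le_pow_left (by omega) _
  generalize (2 * m * n + 1) ^ t = B at hB1 hB
  have hK := KK_le (n := n) (L := L) (2 * m * n + 2) hQ (by omega) (by omega) hn (by omega) B
    hB1 hB (t - 1)
  have hnL : n ^ L ≤ 2 * m * n + 2 := by omega
  have hLQ : L ≤ 2 * m * n + 2 := by omega
  generalize 2 * m * n + 2 = Q at hQ hB hK hnL hLQ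
  obtain ⟨t, rfl⟩ : ∃ t', t = t' + 1 := ⟨t - 1, by omega⟩
  rw [Nat.add_sub_cancel] at hK ⊢
  have hQ1 : 1 ≤ Q := by omega
  have h3 : n ^ L * 2 ≤ Q ^ (5 * t + 13) := by
    calc n ^ L * 2 ≤ Q * Q := Nat.mul_le_mul hnL hQ
      _ = Q ^ 2 := by ring
      _ ≤ Q ^ (5 * t + 13) := Nat.pow_le_pow_right hQ1 (by omega)
  have h4 : L * (n ^ L * KK n L B t) ≤ Q ^ (5 * t + 13) := by
    calc L * (n ^ L * KK n L B t) ≤ Q * (Q * Q ^ (2 * (t + 1) + 9 + 3 * t)) :=
          Nat.mul_le_mul hLQ (Nat.mul_le_mul hnL hK)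
      _ = Q ^ (5 * t + 13) := by ring
  have h5 : n ^ L * 2 + L * (n ^ L * KK n L B t) + 1 ≤ Q ^ (5 * t + 15) := by
    have h6 : 1 ≤ Q ^ (5 * t + 13) := Nat.one_le_pow _ _ hQ1
    calc n ^ L * 2 + L * (n ^ L * KK n L B t) + 1 ≤ 2 ^ 2 * Q ^ (5 * t + 13) := by omega
      _ ≤ Q ^ 2 * Q ^ (5 * t + 13) := Nat.mul_le_mul_right _ (Nat.pow_le_pow_left hQ 2)
      _ = Q ^ (5 * t + 15) := by ring
  have h7 : t + 1 ≤ Q ^ (t + 1) :=
    (Nat.lt_two_pow_self (n := t + 1)).le.trans (Nat.pow_le_pow_left hQ _)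
  calc (n ^ L * 2 + L * (n ^ L * KK n L B t) + 1) * (B * (t + 1))
      ≤ Q ^ (5 * t + 15) * (Q ^ (t + 1) * Q ^ (t + 1)) :=
        Nat.mul_le_mul h5 (Nat.mul_le_mul hB h7)
    _ = Q ^ (7 * t + 17) := by ring
    _ ≤ Q ^ (17 * (t + 1)) := Nat.pow_le_pow_right hQ1 (by omega)

end Pool.Agent.Work.MP_f7ef37_lc
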