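import Pool.Agent.Work.MP_f7ef37_lc.Calc

/-!
# MP_f7ef37_lc: walks through the inverse of the pigeon map, the recursion over the tree of codes
-/

set_option autoImplicit false

namespace Pool.Agent.Work.MP_f7ef37_lc

open Finset

variable {m n L t : ℕ}

/-- The walks from the hole `w` along a list of coordinates: positive terms with end point. -/
def W (dec : Fin m → Fin L → Fin n) :
    List (Fin L) → Fin n → Finset (Finset (Fin m × Fin n × Bool) × Fin n)
  | [], w => {(∅, w)}
  | p :: ps, w => Finset.univ.biUnion (fun u : Fin m =>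
      (W dec ps (dec u p)).image (fun z => (insert (u, w, true) z.1, z.2)))

theorem mem_W_cons (dec : Fin m → Fin L → Fin n) (p : Fin L) (ps : List (Fin L)) (w : Fin n)
    (z : Finset (Fin m × Fin n × Bool) × Fin n) :
    z ∈ W dec (p :: ps) w ↔ ∃ u : Fin m, ∃ z' ∈ W dec ps (dec u p),
      z = (insert (u, w, true) z'.1, z'.2) := by
  simp only [W, Finset.mem_biUnion, Finset.mem_univ, true_and, Finset.mem_image]
  constructor
  · rintro ⟨u, z', hz', rfl⟩
    exact ⟨u, z', hz', rfl⟩
  · rintro ⟨u, z', hz', rfl⟩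
    exact ⟨u, z', hz', rfl⟩

theorem W_card (dec : Fin m → Fin L → Fin n) (ps : List (Fin L)) :
    ∀ (w : Fin n), ∀ z ∈ W dec ps w, z.1.card ≤ ps.length := by
  induction ps with
  | nil =>
    intro w z hz
    simp only [W, Finset.mem_singleton] at hz
    subst hz
    simp
  | cons p ps ih =>
    intro w z hz
    rw [mem_W_cons] at hz
    obtain ⟨u, z', hz', rfl⟩ := hz
    refine (Finset.card_insert_le _ _).trans ?_
    rw [List.length_cons]
    exact Nat.succ_le_succ (ih _ _ hz')

theorem W_pos (dec : Fin m → Fin L → Fin n) (ps : List (Fin L)) (hps : 1 ≤ ps.length) (w : Fin n)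
    (z) (hz : z ∈ W dec ps w) : z.1.Nonempty := by
  cases ps with
  | nil => simp at hps
  | cons p ps =>
    rw [mem_W_cons] at hz
    obtain ⟨u, z', hz', rfl⟩ := hz
    exact Finset.insert_nonempty _ _

theorem W_clash (dec : Fin m → Fin L → Fin n) (ps : List (Fin L)) :
    ∀ (b : Fin n), ∀ z ∈ W dec ps b, ∀ z' ∈ W dec ps b, z.2 ≠ z'.2 → Clash z.1 z'.1 := by
  induction ps with
  | nil =>
    intro b z hz z' hz' hne
    simp only [W, Finset.mem_singleton] at hz hz'
    subst hz hz'
    exact absurd rfl hne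
  | cons p ps ih =>
    intro b z hz z' hz' hne
    rw [mem_W_cons] at hz hz'
    obtain ⟨u, y, hy, rfl⟩ := hz
    obtain ⟨u', y', hy', rfl⟩ := hz'
    by_cases huu : u = u'
    · subst huu
      obtain ⟨w, v, v', hvv, hv, hv'⟩ := ih _ y hy y' hy' hne
      exact ⟨w, v, v', hvv, Finset.mem_insert_of_mem hv, Finset.mem_insert_of_mem hv'⟩
    · exact ⟨b, u, u', huu, Finset.mem_insert_self _ _, Finset.mem_insert_self _ _⟩

theorem W_append (dec : Fin m → Fin L → Fin n) (q : Fin L) (u : Fin m) (ps : List (Fin L)) :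
    ∀ (b : Fin n), ∀ z ∈ W dec ps b,
      (insert (u, z.2, true) z.1, dec u q) ∈ W dec (ps ++ [q]) b := by
  induction ps with
  | nil =>
    intro b z hz
    simp only [W, Finset.mem_singleton] at hz
    subst hz
    rw [List.nil_append, mem_W_cons]
    exact ⟨u, (∅, dec u q), by simp [W], rfl⟩
  | cons p ps ih =>
    intro b z hz
    rw [mem_W_cons] at hz
    obtain ⟨v, z', hz', rfl⟩ := hz
    rw [List.cons_append, mem_W_cons]
    refine ⟨v, _, ih _ z' hz', ?_⟩
    rw [Finset.insert_comm]

/-- The line: some hole below the node `pi` walks to `c`. -/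
def NN (dec : Fin m → Fin L → Fin n) (path : Fin n → List (Fin L)) (pi : List (Fin L))
    (c : Fin n) : Line m n :=
  Finset.univ.biUnion (fun b : Fin n => if pi <+: path b then
    ((W dec pi b).filter (fun z => z.2 = c)).image Prod.fst else ∅)

theorem mem_NN (dec : Fin m → Fin L → Fin n) (path : Fin n → List (Fin L))
    (pi : List (Fin L)) (c : Fin n) (T : Finset (Fin m × Fin n × Bool)) :
    T ∈ NN dec path pi c ↔ ∃ b : Fin n, pi <+: path b ∧ (T, c) ∈ W dec pi b := by
  simp only [NN, Finset.mem_biUnion, Finset.mem_univ, true_and]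
  constructor
  · rintro ⟨b, hb⟩
    split_ifs at hb with h
    · rw [Finset.mem_image] at hb
      obtain ⟨z, hz, rfl⟩ := hb
      rw [Finset.mem_filter] at hz
      obtain ⟨hz, rfl⟩ := hz
      exact ⟨b, h, hz⟩
    · simp at hb
  · rintro ⟨b, h, hb⟩
    refine ⟨b, ?_⟩
    rw [if_pos h, Finset.mem_image]
    exact ⟨(T, c), Finset.mem_filter.mpr ⟨hb, rfl⟩, rfl⟩

theorem good_NN (dec : Fin m → Fin L → Fin n) (path : Fin n → List (Fin L))
    (pi : List (Fin L)) (h1 : 1 ≤ pi.length) (h2 : pi.length ≤ t) (c : Fin n) :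
    Good t (NN dec path pi c) := by
  intro T hT
  rw [mem_NN] at hT
  obtain ⟨b, _, hT⟩ := hT
  exact ⟨(W_pos dec pi h1 b _ hT).card_pos, (W_card dec pi b _ hT).trans h2⟩

/-- The walks from `b` which do not end in `v`. -/
def AB (dec : Fin m → Fin L → Fin n) (pi : List (Fin L)) (b v : Fin n) : Line m n :=
  ((W dec pi b).filter (fun z => z.2 ≠ v)).image Prod.fst

theorem mem_AB (dec : Fin m → Fin L → Fin n) (pi : List (Fin L)) (b v : Fin n)
    (T : Finset (Fin m × Fin n × Bool)) :
    T ∈ AB dec pi b v ↔ ∃ v', v' ≠ v ∧ (T, v') ∈ W dec pi b := by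
  simp only [AB, Finset.mem_image, Finset.mem_filter]
  constructor
  · rintro ⟨z, ⟨hz, hv⟩, rfl⟩
    exact ⟨z.2, hv, hz⟩
  · rintro ⟨v', hv, hz⟩
    exact ⟨(T, v'), ⟨hz, hv⟩, rfl⟩

/-- The pigeon in the hole `v` has the coordinate `w` at the place `q`. -/
def DB (dec : Fin m → Fin L → Fin n) (q : Fin L) (v w : Fin n) : Line m n :=
  (Finset.univ.filter (fun u : Fin m => dec u q = w)).image (fun u => {(u, v, true)})

theorem mem_DB (dec : Fin m → Fin L → Fin n) (q : Fin L) (v w : Fin n)
    (T : Finset (Fin m × Fin n × Bool)) :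
    T ∈ DB dec q v w ↔ ∃ u, dec u q = w ∧ T = {(u, v, true)} := by
  simp only [DB, Finset.mem_image, Finset.mem_filter, Finset.mem_univ, true_and]
  constructor
  · rintro ⟨u, hu, rfl⟩
    exact ⟨u, hu, rfl⟩
  · rintro ⟨u, hu, rfl⟩
    exact ⟨u, hu, rfl⟩

/-- The data of the refutation. -/
structure Data (m n L r : ℕ) where
  dec : Fin m → Fin L → Fin n
  enc : (Fin L → Fin n) → Fin m
  hde : ∀ c, dec (enc c) = c
  e : Bool → Fin n
  he : e false ≠ e true
  path : Fin n → List (Fin L)
  len : ∀ b, (path b).length = r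
  inj : Function.Injective path

/-- The lines of the children of a node of the last but one level. -/
def NB {r : ℕ} (d : Data m n L r) (pi : List (Fin L)) (q : Fin L) (x : Fin n × Bool) :
    Line m n :=
  Finset.univ.biUnion (fun b : Fin n => if d.path b = pi ++ [q] then
    AB d.dec pi b x.1 ∪ DB d.dec q x.1 (d.e x.2) else ∅)

theorem mem_NB {r : ℕ} (d : Data m n L r) (pi : List (Fin L)) (q : Fin L) (x : Fin n × Bool)
    (T : Finset (Fin m × Fin n × Bool)) :
    T ∈ NB d pi q x ↔ ∃ b : Fin n, d.path b = pi ++ [q] ∧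
      (T ∈ AB d.dec pi b x.1 ∨ T ∈ DB d.dec q x.1 (d.e x.2)) := by
  simp only [NB, Finset.mem_biUnion, Finset.mem_univ, true_and]
  constructor
  · rintro ⟨b, hb⟩
    split_ifs at hb with h
    · rw [Finset.mem_union] at hb
      exact ⟨b, h, hb⟩
    · simp at hb
  · rintro ⟨b, h, hb⟩
    exact ⟨b, by rwa [if_pos h, Finset.mem_union]⟩

theorem good_AB (dec : Fin m → Fin L → Fin n) (pi : List (Fin L)) (h1 : 1 ≤ pi.length)
    (h2 : pi.length ≤ t) (b v : Fin n) : Good t (AB dec pi b v) := by
  intro T hT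
  rw [mem_AB] at hT
  obtain ⟨v', _, hT⟩ := hT
  exact ⟨(W_pos dec pi h1 b _ hT).card_pos, (W_card dec pi b _ hT).trans h2⟩

theorem good_DB (dec : Fin m → Fin L → Fin n) (q : Fin L) (v w : Fin n) (ht : 1 ≤ t) :
    Good t (DB dec q v w) := by
  intro T hT
  rw [mem_DB] at hT
  obtain ⟨u, _, rfl⟩ := hT
  simpa using ht

theorem good_NB {r : ℕ} (d : Data m n L r) (pi : List (Fin L)) (h1 : 1 ≤ pi.length)
    (h2 : pi.length ≤ t) (q : Fin L) (x : Fin n × Bool) : Good t (NB d pi q x) := by
  intro T hT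
  rw [mem_NB] at hT
  obtain ⟨b, _, hT | hT⟩ := hT
  · exact good_AB d.dec pi h1 h2 b x.1 T hT
  · exact good_DB d.dec q x.1 _ (h1.trans h2) T hT

theorem NB_eq {r : ℕ} (d : Data m n L r) (pi : List (Fin L)) (q : Fin L) (x : Fin n × Bool)
    (b : Fin n) (hb : d.path b = pi ++ [q]) :
    NB d pi q x = AB d.dec pi b x.1 ∪ DB d.dec q x.1 (d.e x.2) := by
  ext T
  rw [mem_NB, Finset.mem_union]
  constructor
  · rintro ⟨b', hb', hT⟩
    rw [d.inj (hb'.trans hb.symm)] at hT
    exact hT
  · intro hT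
    exact ⟨b, hb, hT⟩

theorem NB_empty {r : ℕ} (d : Data m n L r) (pi : List (Fin L)) (q : Fin L) (x : Fin n × Bool)
    (hb : ¬ ∃ b, d.path b = pi ++ [q]) : NB d pi q x = ∅ := by
  ext T
  simp only [Finset.notMem_empty, iff_false]
  intro hT
  rw [mem_NB] at hT
  obtain ⟨b, hb', _⟩ := hT
  exact hb ⟨b, hb'⟩

/-! ### Lines of the first children -/

/-- The line of the first `i` children. -/
def Lam {A : Type} (G : Line m n) (Nq : Fin L → A → Line m n) (i : ℕ) (c : Fin L → A) :
    Line m n :=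
  G ∪ (Finset.univ.filter (fun q : Fin L => q.val < i)).biUnion (fun q => Nq q (c q))

theorem good_Lam {A : Type} {G : Line m n} (gG : Good t G) {Nq : Fin L → A → Line m n}
    (gN : ∀ q x, Good t (Nq q x)) (i : ℕ) (c : Fin L → A) : Good t (Lam G Nq i c) := by
  refine gG.union ?_
  intro T hT
  rw [Finset.mem_biUnion] at hT
  obtain ⟨q, _, hT⟩ := hT
  exact gN q _ T hT

theorem mem_Lam {A : Type} {G : Line m n} {Nq : Fin L → A → Line m n} {c : Fin L → A}
    {q : Fin L} {T : Finset (Fin m × Fin n × Bool)} (hT : T ∈ Nq q (c q)) :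
    T ∈ Lam G Nq L c := by
  refine Finset.mem_union_right _ (Finset.mem_biUnion.mpr ⟨q, ?_, hT⟩)
  simp

theorem Lam_update {A : Type} (G : Line m n) (Nq : Fin L → A → Line m n) (i : ℕ)
    (hi : i < L) (c : Fin L → A) (x : A) :
    Lam G Nq i c ∪ Nq ⟨i, hi⟩ x = Lam G Nq (i + 1) (Function.update c ⟨i, hi⟩ x) := by
  ext T
  simp only [Lam, Finset.mem_union, Finset.mem_biUnion, Finset.mem_filter, Finset.mem_univ,
    true_and]
  constructor
  · rintro ((h | ⟨q, hq, hT⟩) | h)
    · exact Or.inl h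
    · refine Or.inr ⟨q, by omega, ?_⟩
      rw [Function.update_of_ne]
      · exact hT
      · rintro rfl
        simp at hq
    · exact Or.inr ⟨⟨i, hi⟩, by simp, by rwa [Function.update_self]⟩
  · rintro (h | ⟨q, hq, hT⟩)
    · exact Or.inl (Or.inl h)
    · by_cases hqi : q = ⟨i, hi⟩
      · subst hqi
        rw [Function.update_self] at hT
        exact Or.inr hT
      · rw [Function.update_of_ne hqi] at hT
        refine Or.inl (Or.inr ⟨q, ?_, hT⟩)
        have : q.val ≠ i := fun h => hqi (Fin.ext h)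
        omega

theorem Lam_zero {A : Type} (G : Line m n) (Nq : Fin L → A → Line m n) (c : Fin L → A) :
    Lam G Nq 0 c = G := by
  simp [Lam]

/-- The step at a node. -/
theorem R.nodeStep {A : Type} [Fintype A] [DecidableEq A] [Nonempty A] {H : Set (Line m n)}
    {G : Line m n} (gG : Good t G) (Nq : Fin L → A → Line m n) (gN : ∀ q x, Good t (Nq q x))
    (K K₁ : ℕ)
    (hsub : ∀ (q : Fin L) (G' : Line m n), Good t G' → ∀ H' : Set (Line m n),
      (∀ x, G' ∪ Nq q x ∈ H') → R t H' K {G'})
    (hX : ∀ c : Fin L → A, R t H K₁ {Lam G Nq L c}) :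
    R t H (Fintype.card A ^ L * K₁ + L * (Fintype.card A ^ L * K)) {G} := by
  have h0 : R t H (Fintype.card A ^ L * K₁) (Set.range (Lam G Nq L)) := by
    have h2 := R.all (t := t) (H := H) (Finset.univ : Finset (Fin L → A)) (Lam G Nq L)
      (K := K₁) (fun c _ => hX c)
    rwa [Finset.card_univ, Fintype.card_fun, Fintype.card_fin, Finset.coe_univ,
      Set.image_univ] at h2
  refine h0.trans ?_
  generalize hH1 : H ∪ Set.range (Lam G Nq L) = H1
  have hH : ∀ c, Lam G Nq L c ∈ H1 := fun c => by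
    rw [← hH1]
    exact Or.inr ⟨c, rfl⟩
  have h1 : ∀ j ≤ L, R t H1 (j * (Fintype.card A ^ L * K)) (Set.range (Lam G Nq (L - j))) := by
    intro j
    induction j with
    | zero =>
      intro _
      rw [Nat.sub_zero]
      refine R.of_sub ?_ _
      rintro _ ⟨c, rfl⟩
      exact hH c
    | succ j ih =>
      intro hj
      have hi : L - (j + 1) < L := by omega
      have hij : L - j = L - (j + 1) + 1 := by omega
      have h2 := ih (by omega)
      have h3 : R t (H1 ∪ Set.range (Lam G Nq (L - j))) (Fintype.card A ^ L * K)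
          (Lam G Nq (L - (j + 1)) '' ((Finset.univ : Finset (Fin L → A)) : Set (Fin L → A))) := by
        have h4 := R.all (t := t) (H := H1 ∪ Set.range (Lam G Nq (L - j)))
          (Finset.univ : Finset (Fin L → A)) (Lam G Nq (L - (j + 1))) (K := K) (fun c _ => ?_)
        · rwa [Finset.card_univ, Fintype.card_fun, Fintype.card_fin] at h4
        · refine hsub ⟨L - (j + 1), hi⟩ _ (good_Lam gG gN _ c) _ fun x => Or.inr ?_
          rw [Lam_update G Nq _ hi c x, ← hij]
          exact ⟨_, rfl⟩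
      refine (h2.trans h3).mono subset_rfl ?_ ?_
      · rw [add_mul, one_mul]
      · rw [Finset.coe_univ, Set.image_univ]
  have h5 := h1 L le_rfl
  refine h5.mono subset_rfl le_rfl ?_
  rintro _ rfl
  rw [Nat.sub_self]
  exact ⟨fun _ => Classical.arbitrary A, Lam_zero _ _ _⟩

/-! ### The recursion -/

theorem prefix_drop {L : ℕ} {pi l : List (Fin L)} (h : pi <+: l) (h' : pi.length < l.length) :
    ∃ q, pi ++ [q] <+: l := by
  obtain ⟨s, rfl⟩ := h
  cases s with
  | nil => simp at h'
  | cons q s => exact ⟨q, ⟨s, by simp⟩⟩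

/-- The bottom of the recursion: one child. -/
theorem R.child (ht : 1 ≤ t) {r : ℕ} (d : Data m n L r) (B : ℕ)
    (hB : ∀ F : Line m n, Good t F → F.card ≤ B) (pi : List (Fin L)) (h1 : 1 ≤ pi.length)
    (h2 : pi.length ≤ t) (q : Fin L) (G : Line m n) (gG : Good t G) (H : Set (Line m n))
    (hH : ∀ x, G ∪ NB d pi q x ∈ H) : R t H ((n + 1) * (B * (3 * B + 2) + 1)) {G} := by
  by_cases hb : ∃ b, d.path b = pi ++ [q]
  · obtain ⟨b, hb⟩ := hb
    have h3 : ∀ v, R t H (B * (3 * B + 2) + 1) {G ∪ AB d.dec pi b v} := by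
      intro v
      refine R.contr ht (A := DB d.dec q v (d.e false)) ?_ (gG.union (good_AB d.dec pi h1 h2 b v))
        (good_DB d.dec q v _ ht) B hB ?_
      · have := hH (v, false)
        rwa [NB_eq d pi q _ b hb, ← Finset.union_assoc] at this
      · intro T hT
        refine ⟨DB d.dec q v (d.e true), ?_, good_DB d.dec q v _ ht, ?_⟩
        · have := hH (v, true)
          rwa [NB_eq d pi q _ b hb, ← Finset.union_assoc] at this
        · intro T' hT'
          rw [mem_DB] at hT hT'
          obtain ⟨u, hu, rfl⟩ := hT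
          obtain ⟨u', hu', rfl⟩ := hT'
          refine ⟨v, u, u', ?_, by simp, by simp⟩
          rintro rfl
          exact d.he (hu.symm.trans hu')
    have h4 := R.all (t := t) (H := H) (Finset.univ : Finset (Fin n))
      (fun v => G ∪ AB d.dec pi b v) (K := B * (3 * B + 2) + 1) (fun v _ => h3 v)
    rw [Finset.card_univ, Fintype.card_fin] at h4
    refine (h4.trans (R.contr ht (A := AB d.dec pi b (d.e false)) (Or.inr ⟨d.e false, by simp, rfl⟩)
      gG (good_AB d.dec pi h1 h2 b _) B hB ?_)).mono subset_rfl (by rw [add_mul, one_mul])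
      subset_rfl
    intro T hT
    rw [mem_AB] at hT
    obtain ⟨v', _, hT⟩ := hT
    refine ⟨AB d.dec pi b v', Or.inr ⟨v', by simp, rfl⟩, good_AB d.dec pi h1 h2 b _, ?_⟩
    intro T' hT'
    rw [mem_AB] at hT'
    obtain ⟨v'', hv, hT'⟩ := hT'
    exact W_clash d.dec pi b _ hT _ hT' (Ne.symm hv)
  · have h3 := hH (d.e false, false)
    rw [NB_empty d pi q _ hb, Finset.union_empty] at h3
    exact R.of_sub (by simpa using h3) _

/-- Number of steps for a node with `k` levels below it. -/
def KK (n L B : ℕ) : ℕ → ℕ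
  | 0 => (n * 2) ^ L * 2 + L * ((n * 2) ^ L * ((n + 1) * (B * (3 * B + 2) + 1)))
  | k + 1 => n ^ L * (n * (B + 1) + 2) + L * (n ^ L * KK n L B k)

theorem R.sub (d : Data m n L (t + 1)) (B : ℕ)
    (hB : ∀ F : Line m n, Good t F → F.card ≤ B) (k : ℕ) :
    ∀ (pi : List (Fin L)), 1 ≤ pi.length → pi.length + k = t → ∀ G : Line m n, Good t G →
      ∀ H : Set (Line m n), (∀ x, G ∪ NN d.dec d.path pi x ∈ H) →
        R t H (KK n L B k) {G} := by
  have : Nonempty (Fin n) := ⟨d.e false⟩
  induction k with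
  | zero =>
    intro pi hpi hk G gG H hH
    have ht1 : 1 ≤ t := by omega
    have gNB := good_NB d pi hpi (by omega : pi.length ≤ t)
    have h1 := R.nodeStep (t := t) (H := H) (A := Fin n × Bool) gG (NB d pi) gNB
      ((n + 1) * (B * (3 * B + 2) + 1)) 2
      (fun q G' gG' H' hH' => R.child ht1 d B hB pi hpi (by omega) q G' gG' H' hH') ?_
    · rw [Fintype.card_prod, Fintype.card_fin, Fintype.card_bool] at h1
      exact h1
    · intro c
      have gZ := good_Lam gG gNB L c
      by_cases hx : ∃ x : Fin n, ∀ q b, d.path b = pi ++ [q] → (c q).1 ≠ x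
      · obtain ⟨x, hx⟩ := hx
        refine (R.weak (hH x) ?_ gZ).mono subset_rfl (by norm_num) subset_rfl
        refine Finset.union_subset Finset.subset_union_left ?_
        intro T hT
        rw [mem_NN] at hT
        obtain ⟨b, hb, hT⟩ := hT
        obtain ⟨q, hq⟩ := prefix_drop hb (by rw [d.len]; omega)
        have hq' : d.path b = pi ++ [q] := by
          refine (hq.eq_of_length ?_).symm
          rw [d.len, List.length_append, List.length_singleton]
          omega
        refine mem_Lam (q := q) ?_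
        rw [mem_NB]
        refine ⟨b, hq', Or.inl ?_⟩
        rw [mem_AB]
        exact ⟨x, (hx q b hq').symm, hT⟩
      · push Not at hx
        refine (R.pigeonAx ht1 (d.enc fun q => d.e (c q).2)).trans (R.weak (Or.inr rfl) ?_ gZ)
        intro T hT
        rw [Finset.mem_image] at hT
        obtain ⟨x, _, rfl⟩ := hT
        obtain ⟨q, b, hb, hx⟩ := hx x
        refine mem_Lam (q := q) ?_
        rw [mem_NB]
        refine ⟨b, hb, Or.inr ?_⟩
        rw [mem_DB]
        exact ⟨_, by rw [d.hde], by rw [hx]⟩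
  | succ k ih =>
    intro pi hpi hk G gG H hH
    have ht1 : 1 ≤ t := by omega
    have gN : ∀ (q : Fin L) (x : Fin n), Good t (NN d.dec d.path (pi ++ [q]) x) := fun q x =>
      good_NN d.dec d.path _ (by simp) (by simp; omega) x
    have h1 := R.nodeStep (t := t) (H := H) (A := Fin n) gG
      (fun q x => NN d.dec d.path (pi ++ [q]) x) gN (KK n L B k) (n * (B + 1) + 2)
      (fun q G' gG' H' hH' => ih (pi ++ [q]) (by simp) (by simp; omega) G' gG' H' hH') ?_
    · rw [Fintype.card_fin] at h1
      exact h1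
    · intro c
      refine R.pigeon ht1 (fun x => NN d.dec d.path pi x) (d.enc c) hH
        (fun x => good_NN d.dec d.path pi hpi (by omega) x) (good_Lam gG gN L c) B hB
        Finset.subset_union_left ?_
      intro x T hT
      rw [mem_NN] at hT
      obtain ⟨b, hb, hT⟩ := hT
      obtain ⟨q, hq⟩ := prefix_drop hb (by rw [d.len]; omega)
      refine mem_Lam (q := q) ?_
      rw [mem_NN]
      refine ⟨b, hq, ?_⟩
      have h2 := W_append d.dec q (d.enc c) pi b _ hT
      rw [d.hde] at h2
      rwa [← Finset.insert_eq]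

/-- The refutation. -/
theorem R.root (ht : 1 ≤ t) (d : Data m n L (t + 1)) (B : ℕ)
    (hB : ∀ F : Line m n, Good t F → F.card ≤ B) :
    R t (∅ : Set (Line m n)) (n ^ L * 2 + L * (n ^ L * KK n L B (t - 1))) {∅} := by
  have : Nonempty (Fin n) := ⟨d.e false⟩
  have gN : ∀ (q : Fin L) (x : Fin n), Good t (NN d.dec d.path [q] x) := fun q x =>
    good_NN d.dec d.path _ (by simp) (by simpa using ht) x
  have gE : Good t (∅ : Line m n) := fun T hT => by simp at hT
  have h1 := R.nodeStep (t := t) (H := (∅ : Set (Line m n))) (A := Fin n) gE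
    (fun q x => NN d.dec d.path [q] x) gN (KK n L B (t - 1)) 2
    (fun q G' gG' H' hH' => R.sub d B hB (t - 1) [q] (by simp) (by simp; omega) G' gG' H' hH') ?_
  · rw [Fintype.card_fin] at h1
    exact h1
  · intro c
    refine (R.pigeonAx ht (d.enc c)).trans (R.weak (Or.inr rfl) ?_ (good_Lam gE gN L c))
    intro T hT
    rw [Finset.mem_image] at hT
    obtain ⟨x, _, rfl⟩ := hT
    obtain ⟨q, hq⟩ := prefix_drop (pi := []) (l := d.path x) List.nil_prefix
      (by rw [d.len]; simp)
    refine mem_Lam (q := q) ?_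
    rw [mem_NN]
    refine ⟨x, hq, ?_⟩
    have h2 := W_append d.dec q (d.enc c) [] x (∅, x) (by simp [W])
    rw [d.hde] at h2
    simpa using h2

end Pool.Agent.Work.MP_f7ef37_lc
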