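import Pool.Agent.Work.MP_f7ef37_lc.Num

/-!
# Refutations of the weak pigeonhole principle in `R(t)` of size `exp (O (n^(1/(t+1)) log n))`

For every `t ≥ 1` and every `n ≥ 2` the pigeonhole principle with
`m = n ^ ⌈n^(1/(t+1))⌉` pigeons and `n` holes has `R(t)`-refutations of size at most
`exp (85 t n^(1/(t+1)) log n)`. The refutations use the pigeon clauses and the hole clauses only;
these are among the clauses of `onto-FPHP`. In particular for every `ε > 0` a constant `t` gives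
size `exp (n^ε)`, and `t = ⌈log₂ n⌉` gives `m = n²` and quasi-polynomial size.
-/

set_option autoImplicit false

namespace Pool.Agent.Results.MP_f7ef37_lc.ResTUpper

open Finset

/-- The pigeon clauses and the hole clauses with `m` pigeons and `n` holes. A literal is a triple
`(i, j, b)`: the variable `x_ij` for `b = true`, its negation for `b = false`. A term is a finite
set of literals (their conjunction), a line is a finite set of terms (their disjunction). -/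
def PHPClause {m n : ℕ} (F : Finset (Finset (Fin m × Fin n × Bool))) : Prop :=
  (∃ i : Fin m, F = Finset.univ.image
      (fun j : Fin n => ({(i, j, true)} : Finset (Fin m × Fin n × Bool)))) ∨
  (∃ i i' : Fin m, ∃ j : Fin n, i ≠ i' ∧ F = {{(i, j, false)}, {(i', j, false)}})

/-- `P 0, ..., P k` is an `R(t)`-refutation from the clauses `Cl`: all lines are `t`-DNFs, the
last one is empty, and every line is a clause in `Cl` or follows from earlier lines by weakening,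
`∧`-introduction, `∧`-elimination or cut (the last three may be followed by a weakening). -/
def IsRefutation {m n : ℕ} (t : ℕ) (Cl : Finset (Finset (Fin m × Fin n × Bool)) → Prop) (k : ℕ)
    (P : Fin (k + 1) → Finset (Finset (Fin m × Fin n × Bool))) : Prop :=
  (∀ s, ∀ T ∈ P s, 1 ≤ T.card ∧ T.card ≤ t) ∧
  P (Fin.last k) = ∅ ∧
  ∀ s : Fin (k + 1), Cl (P s) ∨
    (∃ r : Fin (k + 1), r < s ∧ P r ⊆ P s) ∨
    (∃ r r' : Fin (k + 1), r < s ∧ r' < s ∧ ∃ T ∈ P r, ∃ T' ∈ P r',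
        (P r).erase T ∪ (P r').erase T' ∪ {T ∪ T'} ⊆ P s) ∨
    (∃ r : Fin (k + 1), r < s ∧ ∃ T ∈ P r, ∃ T' ⊆ T, T'.Nonempty ∧
        (P r).erase T ∪ {T'} ⊆ P s) ∨
    (∃ r r' : Fin (k + 1), r < s ∧ r' < s ∧ ∃ T ∈ P r,
        T.image (fun l => ({(l.1, l.2.1, !l.2.2)} : Finset (Fin m × Fin n × Bool))) ⊆ P r' ∧
        (P r).erase T ∪ (P r' \ T.image
          (fun l => ({(l.1, l.2.1, !l.2.2)} : Finset (Fin m × Fin n × Bool)))) ⊆ P s)

/-- The number of literal occurrences. -/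
def size {m n k : ℕ} (P : Fin (k + 1) → Finset (Finset (Fin m × Fin n × Bool))) : ℕ :=
  ∑ s, ∑ T ∈ P s, T.card

/-- The number `n ^ ⌈n^(1/(t+1))⌉` of pigeons. -/
noncomputable def pigeons (t n : ℕ) : ℕ := n ^ ⌈(n : ℝ) ^ (1 / ((t : ℝ) + 1))⌉₊

theorem aux (t n : ℕ) (hn : 2 ≤ n) :
    2 ≤ ⌈(n : ℝ) ^ (1 / ((t : ℝ) + 1))⌉₊ ∧ n ≤ ⌈(n : ℝ) ^ (1 / ((t : ℝ) + 1))⌉₊ ^ (t + 1) ∧
    ((⌈(n : ℝ) ^ (1 / ((t : ℝ) + 1))⌉₊ : ℕ) : ℝ) + 3 ≤ 5 * (n : ℝ) ^ (1 / ((t : ℝ) + 1)) := by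
  have hn1 : (1 : ℝ) < n := by exact_mod_cast (by omega : 1 < n)
  have ht : (0 : ℝ) < (t : ℝ) + 1 := by positivity
  have h1 : (1 : ℝ) < (n : ℝ) ^ (1 / ((t : ℝ) + 1)) := Real.one_lt_rpow hn1 (by positivity)
  have h2 : ((n : ℝ) ^ (1 / ((t : ℝ) + 1))) ^ (t + 1) = n := by
    rw [← Real.rpow_natCast, ← Real.rpow_mul (by positivity)]
    rw [Nat.cast_add, Nat.cast_one, one_div, inv_mul_cancel₀ ht.ne', Real.rpow_one]
  generalize (n : ℝ) ^ (1 / ((t : ℝ) + 1)) = a at h1 h2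
  have h3 : a ≤ (⌈a⌉₊ : ℝ) := Nat.le_ceil a
  have h4 : (⌈a⌉₊ : ℝ) < a + 1 := Nat.ceil_lt_add_one (by linarith)
  refine ⟨?_, ?_, by linarith⟩
  · have h5 : (1 : ℝ) < (⌈a⌉₊ : ℝ) := lt_of_lt_of_le h1 h3
    have h6 : 1 < ⌈a⌉₊ := by exact_mod_cast h5
    omega
  · have h5 : (n : ℝ) ≤ (⌈a⌉₊ : ℝ) ^ (t + 1) := by
      rw [← h2]
      exact pow_le_pow_left₀ (by linarith) h3 _
    exact_mod_cast h5

theorem result (t : ℕ) (ht : 1 ≤ t) (n : ℕ) (hn : 2 ≤ n) :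
    n < pigeons t n ∧
    ∃ (k : ℕ) (P : Fin (k + 1) → Finset (Finset (Fin (pigeons t n) × Fin n × Bool))),
      IsRefutation t PHPClause k P ∧
      (size P : ℝ) ≤ Real.exp (85 * t * (n : ℝ) ^ (1 / ((t : ℝ) + 1)) * Real.log n) := by
  obtain ⟨hL2, hL, hL5⟩ := aux t n hn
  have hL5' : ((⌈(n : ℝ) ^ (1 / ((t : ℝ) + 1))⌉₊ : ℕ) : ℝ) + 3 ≤
    5 * (n : ℝ) ^ (1 / ((t : ℝ) + 1)) := hL5
  unfold pigeons
  generalize (⌈(n : ℝ) ^ (1 / ((t : ℝ) + 1))⌉₊ : ℕ) = L at hL2 hL hL5'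
  obtain ⟨k, P, hP1, hP2, hP3, hsize⟩ :=
    Pool.Agent.Work.MP_f7ef37_lc.main_nat t L n (n ^ L) ht hn hL le_rfl
  refine ⟨?_, k, P, ⟨hP1, hP2, ?_⟩, ?_⟩
  · calc n = n ^ 1 := (pow_one n).symm
      _ < n ^ L := Nat.pow_lt_pow_right (by omega) (by omega)
  · intro s
    rcases hP3 s with h | h | ⟨R, ⟨r, hr, rfl⟩, h⟩ | ⟨R, ⟨r, hr, rfl⟩, R', ⟨r', hr', rfl⟩, h⟩ |
      ⟨R, ⟨r, hr, rfl⟩, R', ⟨r', hr', rfl⟩, h⟩
    · exact Or.inl (Or.inl h)
    · exact Or.inl (Or.inr h)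
    · exact Or.inr (Or.inl ⟨r, hr, h⟩)
    · exact Or.inr (Or.inr (Or.inl ⟨r, r', hr, hr', h⟩))
    · exact Or.inr (Or.inr (Or.inr (Or.inr ⟨r, r', hr, hr', h⟩)))
  · have hn0 : (0 : ℝ) < n := by exact_mod_cast (by omega : 0 < n)
    have h1 : 2 * n ^ L * n + 2 ≤ n ^ (L + 3) := by
      have h2 : 1 ≤ n ^ (L + 1) := Nat.one_le_pow _ _ (by omega)
      have h3 : 2 ^ 2 ≤ n ^ 2 := Nat.pow_le_pow_left hn 2
      calc 2 * n ^ L * n + 2 = 2 * n ^ (L + 1) + 2 := by ring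
        _ ≤ 2 ^ 2 * n ^ (L + 1) := by omega
        _ ≤ n ^ 2 * n ^ (L + 1) := Nat.mul_le_mul_right _ h3
        _ = n ^ (L + 3) := by ring
    have h4 : size P ≤ n ^ ((L + 3) * (17 * t)) := by
      have h7 := Nat.pow_le_pow_left h1 (17 * t)
      rw [← pow_mul] at h7
      exact hsize.trans h7
    calc (size P : ℝ) ≤ ((n ^ ((L + 3) * (17 * t)) : ℕ) : ℝ) := by exact_mod_cast h4
      _ = Real.exp (Real.log n * (((L : ℝ) + 3) * (17 * t))) := by
          rw [Nat.cast_pow, ← Real.rpow_natCast, Real.rpow_def_of_pos hn0]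
          push_cast
          rfl
      _ ≤ Real.exp (85 * t * (n : ℝ) ^ (1 / ((t : ℝ) + 1)) * Real.log n) := by
          rw [Real.exp_le_exp]
          have h5 : 0 ≤ Real.log n := Real.log_nonneg (by exact_mod_cast (by omega : 1 ≤ n))
          have h6 : (0 : ℝ) ≤ t := by positivity
          calc Real.log n * (((L : ℝ) + 3) * (17 * t))
              ≤ Real.log n * ((5 * (n : ℝ) ^ (1 / ((t : ℝ) + 1))) * (17 * t)) := by
                refine mul_le_mul_of_nonneg_left ?_ h5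
                exact mul_le_mul_of_nonneg_right hL5' (by positivity)
            _ = 85 * t * (n : ℝ) ^ (1 / ((t : ℝ) + 1)) * Real.log n := by ring

end Pool.Agent.Results.MP_f7ef37_lc.ResTUpper
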